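import Mathlib

/-!
# A stabiliser `MCG(f)` with infinitely generated first homology

Let `Σ` be a compact orientable surface of genus `g ≥ 2` with one boundary component and let
`f : Σ → ⋁^g S¹` be the map which on `π₁(Σ) = ⟨a₁, b₁, …, a_g, b_g⟩` is `aᵢ ↦ xᵢ`, `bᵢ ↦ 1` (the
inclusion of `Σ` in a handlebody).  By Dehn, Nielsen and Baer the mapping class group of `Σ` is the
group of the automorphisms of `π₁(Σ)` which fix the boundary word, and `MCG(f)` is the subgroup
`MCG g g (hbody g)` below.  We show that `H₁(MCG(f); ℤ)` is not finitely generated, so `MCG(f)` is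
not of finite homological type.
-/

namespace Pool.Agent.Results.MP_988b7a_gt.TwistStabiliser

open scoped commutatorElement
open MonoidAlgebra (of)

/-- The fundamental group of a compact orientable surface of genus `g` with one boundary
component, based at a point of the boundary: the free group on `a₁, …, a_g, b₁, …, b_g`. -/
abbrev Surf (g : ℕ) : Type := FreeGroup (Fin g ⊕ Fin g)

/-- The generator `aᵢ`. -/
def a {g : ℕ} (i : Fin g) : Surf g := FreeGroup.of (Sum.inl i)

/-- The generator `bᵢ`. -/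
def b {g : ℕ} (i : Fin g) : Surf g := FreeGroup.of (Sum.inr i)

/-- The class `[a₁,b₁]⋯[a_g,b_g]` of the boundary. -/
def bdry (g : ℕ) : Surf g := ((List.finRange g).map fun i => ⁅a i, b i⁆).prod

/-- The stabiliser `MCG(f)` of the map given by `f : π₁(Σ) → F_r` in the mapping class group
of `Σ`, the latter being the group of the automorphisms of `π₁(Σ)` fixing the boundary word. -/
def MCG (g r : ℕ) (f : Surf g →* FreeGroup (Fin r)) : Subgroup (MulAut (Surf g)) where
  carrier := {φ | φ (bdry g) = bdry g ∧ ∀ w, f (φ w) = f w}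
  mul_mem' := by
    rintro φ ψ ⟨h1, h2⟩ ⟨h3, h4⟩
    refine ⟨?_, fun w => ?_⟩
    · rw [MulAut.mul_apply, h3, h1]
    · rw [MulAut.mul_apply, h2, h4]
  one_mem' := ⟨rfl, fun _ => rfl⟩
  inv_mem' := by
    rintro φ ⟨h1, h2⟩
    refine ⟨?_, fun w => ?_⟩
    · conv_lhs => rw [← h1]
      exact MulAut.inv_apply_self _ _ _
    · conv_rhs => rw [← MulAut.apply_inv_self _ φ w]
      rw [h2]

/-- The map `aᵢ ↦ xᵢ`, `bᵢ ↦ 1`. -/
def hbody (g : ℕ) : Surf g →* FreeGroup (Fin g) :=
  FreeGroup.lift (Sum.elim FreeGroup.of fun _ => 1)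

/-! ### Crossed homomorphisms on a free group -/

section crossed

variable {ι : Type*} {A M : Type*} [Ring A] [AddCommGroup M] [Module A M]

/-- Pairs of an element of the module and an element of the free group. -/
@[ext] structure CG (χ : FreeGroup ι →* A) (M : Type*) where
  /-- module part -/
  m : M
  /-- group part -/
  w : FreeGroup ι

namespace CG
variable (χ : FreeGroup ι →* A)

instance : Mul (CG χ M) := ⟨fun x y => ⟨x.m + χ x.w • y.m, x.w * y.w⟩⟩
instance : One (CG χ M) := ⟨⟨0, 1⟩⟩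
instance : Inv (CG χ M) := ⟨fun x => ⟨-(χ x.w⁻¹ • x.m), x.w⁻¹⟩⟩

@[simp] lemma mul_m (x y : CG χ M) : (x * y).m = x.m + χ x.w • y.m := rfl
@[simp] lemma mul_w (x y : CG χ M) : (x * y).w = x.w * y.w := rfl
@[simp] lemma one_m : (1 : CG χ M).m = 0 := rfl
@[simp] lemma one_w : (1 : CG χ M).w = 1 := rfl
@[simp] lemma inv_m (x : CG χ M) : (x⁻¹).m = -(χ x.w⁻¹ • x.m) := rfl
@[simp] lemma inv_w (x : CG χ M) : (x⁻¹).w = x.w⁻¹ := rfl

instance : Group (CG χ M) := Group.ofLeftAxioms
  (by
    intro x y z
    ext1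
    · simp only [mul_m, mul_w, map_mul, smul_add, mul_smul]; abel
    · simp [mul_assoc])
  (by intro x; ext1 <;> simp)
  (by intro x; ext1 <;> simp)

end CG

lemma exists_crossed (χ : FreeGroup ι →* A) (m : ι → M) :
    ∃ D : FreeGroup ι → M, (∀ u v, D (u * v) = D u + χ u • D v) ∧
      ∀ i, D (FreeGroup.of i) = m i := by
  let Θ : FreeGroup ι →* CG χ M := FreeGroup.lift fun i => ⟨m i, FreeGroup.of i⟩
  let pw : CG χ M →* FreeGroup ι :=
    { toFun := CG.w, map_one' := rfl, map_mul' := fun _ _ => rfl }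
  have hw : ∀ u, (Θ u).w = u := by
    have : pw.comp Θ = MonoidHom.id _ := by
      ext i
      simp [Θ, pw]
    intro u
    exact DFunLike.congr_fun this u
  refine ⟨fun u => (Θ u).m, ?_, ?_⟩
  · intro u v
    simp only [map_mul, CG.mul_m, hw]
  · intro i
    simp [Θ]

variable {χ : FreeGroup ι →* A} {D : FreeGroup ι → M}

lemma crossed_one (h : ∀ u v, D (u * v) = D u + χ u • D v) : D 1 = 0 := by
  have := h 1 1
  simpa using this

lemma crossed_inv (h : ∀ u v, D (u * v) = D u + χ u • D v) (u : FreeGroup ι) :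
    D u⁻¹ = - (χ u⁻¹ • D u) := by
  have h1 := h u⁻¹ u
  rw [inv_mul_cancel, crossed_one h] at h1
  rw [eq_neg_iff_add_eq_zero]
  exact h1.symm

/-- Two crossed homomorphisms which agree on the generators are equal. -/
lemma crossed_ext {D' : FreeGroup ι → M} (h : ∀ u v, D (u * v) = D u + χ u • D v)
    (h' : ∀ u v, D' (u * v) = D' u + χ u • D' v)
    (hg : ∀ i, D (FreeGroup.of i) = D' (FreeGroup.of i)) (u : FreeGroup ι) : D u = D' u := by
  induction u using FreeGroup.induction_on with
  | C1 => rw [crossed_one h, crossed_one h']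
  | of i => exact hg i
  | inv_of i _ => rw [crossed_inv h, crossed_inv h', hg]
  | mul x y hx hy => rw [h, h', hx, hy]

end crossed

/-! ### The augmentation ideal of a free group ring -/

section aug

variable {ι : Type*} [DecidableEq ι]


/-- Right Fox derivatives. -/
lemma exists_right (i : ι) : ∃ T : (MonoidAlgebra ℤ (FreeGroup ι)) →+ (MonoidAlgebra ℤ (FreeGroup ι)), ∀ (j : ι) (p : (MonoidAlgebra ℤ (FreeGroup ι))),
    T ((of ℤ _ (FreeGroup.of j) - 1) * p) = if i = j then p else 0 := by
  let χ : FreeGroup ι →* (MonoidAlgebra ℤ (FreeGroup ι))ᵐᵒᵖ :=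
    { toFun := fun u => MulOpposite.op (of ℤ _ u⁻¹)
      map_one' := by rw [inv_one, map_one]; rfl
      map_mul' := fun u v => by
        rw [mul_inv_rev, map_mul, MulOpposite.op_mul] }
  obtain ⟨E, hE, hEi⟩ := exists_crossed (M := (MonoidAlgebra ℤ (FreeGroup ι))) χ
    (fun j => if i = j then -(of ℤ _ (FreeGroup.of j)⁻¹) else 0)
  let d : FreeGroup ι → (MonoidAlgebra ℤ (FreeGroup ι)) := fun u => E u⁻¹
  have hd : ∀ u v, d (u * v) = d u * of ℤ _ v + d v := by
    intro u v
    simp only [d, mul_inv_rev]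
    rw [hE]
    change E v⁻¹ + MulOpposite.op (of ℤ _ (v⁻¹)⁻¹) • E u⁻¹ = _
    rw [inv_inv, op_smul_eq_mul, add_comm]
  have hdj : ∀ j, d (FreeGroup.of j) = if i = j then 1 else 0 := by
    intro j
    simp only [d]
    rw [crossed_inv hE, hEi]
    change -(MulOpposite.op (of ℤ _ ((FreeGroup.of j)⁻¹)⁻¹) • _) = _
    rw [inv_inv, op_smul_eq_mul]
    split_ifs
    · rw [neg_mul, neg_neg, ← map_mul, inv_mul_cancel, map_one]
    · rw [zero_mul, neg_zero]
  let T : (MonoidAlgebra ℤ (FreeGroup ι)) →+ (MonoidAlgebra ℤ (FreeGroup ι)) := MonoidAlgebra.liftNC (Int.castAddHom (MonoidAlgebra ℤ (FreeGroup ι))) d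
  refine ⟨T, fun j p => ?_⟩
  induction p using MonoidAlgebra.induction_linear with
  | zero => simp
  | add x y hx hy => rw [mul_add, map_add, hx, hy]; split_ifs <;> simp
  | single h c =>
    have h1 : (of ℤ _ (FreeGroup.of j) - 1) * MonoidAlgebra.single h c =
        MonoidAlgebra.single (FreeGroup.of j * h) c - MonoidAlgebra.single h c := by
      rw [sub_mul, one_mul, MonoidAlgebra.of_apply, MonoidAlgebra.single_mul_single, one_mul]
    rw [h1, map_sub]
    change MonoidAlgebra.liftNC (Int.castAddHom (MonoidAlgebra ℤ (FreeGroup ι))) d (MonoidAlgebra.single (FreeGroup.of j * h) c)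
      - MonoidAlgebra.liftNC (Int.castAddHom (MonoidAlgebra ℤ (FreeGroup ι))) d (MonoidAlgebra.single h c) = _
    rw [MonoidAlgebra.liftNC_single, MonoidAlgebra.liftNC_single, hd, hdj]
    rw [mul_add, add_sub_cancel_right]
    split_ifs
    · rw [one_mul]
      change ((c : ℤ) : (MonoidAlgebra ℤ (FreeGroup ι))) * of ℤ _ h = _
      rw [← zsmul_eq_mul, MonoidAlgebra.of_apply, MonoidAlgebra.smul_single, smul_eq_mul, mul_one]
    · simp

lemma aug_free [Fintype ι] (p : ι → (MonoidAlgebra ℤ (FreeGroup ι)))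
    (h : ∑ i, (of ℤ _ (FreeGroup.of i) - 1) * p i = 0) (i : ι) : p i = 0 := by
  obtain ⟨T, hT⟩ := exists_right i
  have h1 := congrArg T h
  rw [map_sum, map_zero] at h1
  simp only [hT] at h1
  simpa using h1

end aug

/-! ### The crossed homomorphism attached to the handlebody map -/

/-- The integral group ring of the free group. -/
abbrev AA (g : ℕ) : Type := MonoidAlgebra ℤ (FreeGroup (Fin g))
/-- The free module of rank `g` over it. -/
abbrev MM (g : ℕ) : Type := Fin g → AA g

section main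
variable {g : ℕ}


lemma hbody_a (i : Fin g) : hbody g (a i) = FreeGroup.of i := by simp [hbody, a]
lemma hbody_b (i : Fin g) : hbody g (b i) = 1 := by simp [hbody, b]

/-- The section `xᵢ ↦ aᵢ`. -/
def sec (g : ℕ) : FreeGroup (Fin g) →* Surf g := FreeGroup.lift a

lemma hbody_sec (u : FreeGroup (Fin g)) : hbody g (sec g u) = u := by
  have : (hbody g).comp (sec g) = MonoidHom.id _ := by
    ext i
    simp [sec, hbody_a]
  exact DFunLike.congr_fun this u

/-- A crossed homomorphism (with respect to a character factoring through the handlebody map)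
which vanishes on the `bᵢ` vanishes on the kernel of the handlebody map. -/
lemma vanish {R N : Type*} [Ring R] [AddCommGroup N] [Module R N]
    (χ : FreeGroup (Fin g) →* R) (E : Surf g → N)
    (hE : ∀ u v, E (u * v) = E u + χ (hbody g u) • E v) (hb : ∀ i, E (b i) = 0)
    (n : Surf g) (hn : hbody g n = 1) : E n = 0 := by
  have key : ∀ u, E u = E (sec g (hbody g u)) := by
    intro u
    have hE' : ∀ u v, E (u * v) = E u + (χ.comp (hbody g)) u • E v := hE
    refine crossed_ext (D := E) (D' := fun u => E (sec g (hbody g u))) hE' ?_ ?_ u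
    · intro u v
      change E (sec g (hbody g (u * v))) = _
      rw [map_mul, map_mul, hE, hbody_sec]
      rfl
    · rintro (i | i)
      · change E (a i) = E (sec g (hbody g (a i)))
        rw [hbody_a]
        simp [sec]
      · change E (b i) = E (sec g (hbody g (b i)))
        rw [hbody_b, map_one, hb]
        exact (crossed_one hE').symm
  rw [key, hn, map_one]
  exact crossed_one (χ := χ.comp (hbody g)) (D := E) hE

lemma exists_D (g : ℕ) : ∃ D : Surf g → MM g,
    (∀ u v, D (u * v) = D u + of ℤ _ (hbody g u) • D v) ∧ (∀ i, D (a i) = 0) ∧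
      ∀ i, D (b i) = Pi.single i 1 := by
  obtain ⟨D, h1, h2⟩ := exists_crossed (A := AA g) (M := MM g) ((of ℤ _).comp (hbody g))
    (Sum.elim (fun _ => 0) fun i => Pi.single i 1)
  exact ⟨D, h1, fun i => h2 (Sum.inl i), fun i => h2 (Sum.inr i)⟩

variable {D : Surf g → MM g}
  (hD : ∀ u v, D (u * v) = D u + of ℤ _ (hbody g u) • D v) (hDa : ∀ i, D (a i) = 0)
  (hDb : ∀ i, D (b i) = Pi.single i 1)

include hD in
lemma D_one : D 1 = 0 := crossed_one (χ := (of ℤ _).comp (hbody g)) (D := D) hD

include hD in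
lemma D_inv (u : Surf g) : D u⁻¹ = - (of ℤ _ (hbody g u)⁻¹ • D u) := by
  have := crossed_inv (χ := (of ℤ _).comp (hbody g)) (D := D) hD u
  simpa using this

include hD hDa hDb in
lemma D_comm (i : Fin g) : D ⁅a i, b i⁆ = Pi.single i (of ℤ _ (FreeGroup.of i) - 1) := by
  rw [commutatorElement_def, hD, hD, hD, D_inv hD (a i), D_inv hD (b i)]
  simp only [map_mul, map_inv, hbody_a, hbody_b, hDa, hDb, smul_zero, neg_zero, add_zero, zero_add,
    inv_one, mul_one, map_one, one_smul, mul_inv_cancel]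
  rw [← Pi.single_smul, smul_eq_mul, mul_one, ← sub_eq_add_neg, ← Pi.single_sub]

lemma hbody_comm (i : Fin g) : hbody g ⁅a i, b i⁆ = 1 := by
  rw [map_commutatorElement, hbody_b, commutatorElement_one_right]

include hD hDa hDb in
lemma D_bdry : D (bdry g) = fun i => of ℤ _ (FreeGroup.of i) - 1 := by
  have key : ∀ l : List (Fin g), D ((l.map fun i => ⁅a i, b i⁆).prod) =
      (l.map fun i => Pi.single i (of ℤ _ (FreeGroup.of i) - 1)).sum := by
    intro l
    induction l with
    | nil => simp [D_one hD]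
    | cons i l ih =>
      rw [List.map_cons, List.prod_cons, hD, hbody_comm, map_one, one_smul, ih,
        D_comm hD hDa hDb, List.map_cons, List.sum_cons]
  unfold bdry
  rw [key, ← Fin.sum_univ_def]
  funext j
  rw [Finset.sum_apply]
  simp [Pi.single_apply]

lemma hbody_bdry : hbody g (bdry g) = 1 := by
  unfold bdry
  rw [map_list_prod, List.map_map]
  have : (⇑(hbody g) ∘ fun i => ⁅a i, b i⁆) = fun _ => 1 := by
    funext i; exact hbody_comm i
  rw [this]
  simp

/-- The linear map on coordinates. -/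
lemma sum_smul_single (v : Fin g → MM g) (i : Fin g) :
    ∑ j, (Pi.single i (1 : AA g) : MM g) j • v j = v i := by
  rw [Finset.sum_eq_single i]
  · simp
  · intro j _ hj
    rw [Pi.single_eq_of_ne hj, zero_smul]
  · intro h; exact absurd (Finset.mem_univ _) h

include hD hDa hDb in
/-- The stabiliser acts trivially on the abelianised kernel. -/
lemma trivial_action (φ : MulAut (Surf g)) (hφ : φ ∈ MCG g g (hbody g)) (n : Surf g)
    (hn : hbody g n = 1) : D (φ n) = D n := by
  obtain ⟨h1, h2⟩ := hφ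
  have key : ∀ n, hbody g n = 1 → D (φ n) = ∑ j, D n j • D (φ (b j)) := by
    intro n hn
    have := vanish (R := AA g) (N := MM g) (of ℤ _) (fun w => D (φ w) - ∑ j, D w j • D (φ (b j)))
      (by
        intro u v
        rw [map_mul, hD, h2, hD u v]
        simp only [Pi.add_apply, Pi.smul_apply, add_smul, smul_assoc, Finset.sum_add_distrib,
          smul_sub, ← Finset.smul_sum]
        abel)
      (by
        intro i
        simp only [hDb]
        rw [sum_smul_single, sub_self])
      n hn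
    exact sub_eq_zero.mp this
  have h3 := key (bdry g) hbody_bdry
  rw [h1, D_bdry hD hDa hDb] at h3
  have h4 : ∀ j, D (φ (b j)) = Pi.single j 1 := by
    intro j
    funext k
    have h5 : ∑ i, (of ℤ _ (FreeGroup.of i) - 1) * (D (φ (b i)) k - (Pi.single i (1 : AA g) : MM g) k)
        = 0 := by
      simp only [mul_sub, Finset.sum_sub_distrib]
      have h6 := congrFun h3 k
      rw [Finset.sum_apply] at h6
      simp only [Pi.smul_apply, smul_eq_mul] at h6
      rw [← h6]
      simp [Pi.single_apply]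
    exact sub_eq_zero.mp (aug_free _ h5 j)
  rw [key n hn]
  simp only [h4]
  funext k
  rw [Finset.sum_apply]
  simp [Pi.single_apply]

/-! ### The homomorphism to `ℤ[F_g]^g` -/

lemma hbody_mem {φ : MulAut (Surf g)} (hφ : φ ∈ MCG g g (hbody g)) (w : Surf g) :
    hbody g (φ w) = hbody g w := hφ.2 w

include hD hDa hDb in
lemma delta_mul (i : Fin g) (φ ψ : MulAut (Surf g)) (hφ : φ ∈ MCG g g (hbody g))
    (hψ : ψ ∈ MCG g g (hbody g)) : D ((φ * ψ) (a i)) = D (φ (a i)) + D (ψ (a i)) := by
  have h1 : hbody g (ψ (a i) * (a i)⁻¹) = 1 := by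
    rw [map_mul, map_inv, hψ.2, mul_inv_cancel]
  have h2 := trivial_action hD hDa hDb φ hφ _ h1
  have h3 : D (ψ (a i) * (a i)⁻¹) = D (ψ (a i)) := by
    rw [hD, D_inv hD, hDa, smul_zero, neg_zero, smul_zero, add_zero]
  have h4 : (φ * ψ) (a i) = φ (ψ (a i) * (a i)⁻¹) * φ (a i) := by
    rw [← map_mul, inv_mul_cancel_right]; rfl
  rw [h4, hD, h2, h3, hφ.2, h1, map_one, one_smul, add_comm]

end main

/-! ### The automorphisms -/

section auts
variable {n : ℕ}

/-- `c = a₂⁻¹ b₁ a₂` -/
def cc (n : ℕ) : Surf (n + 2) := (a 1)⁻¹ * b 0 * a 1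

/-- values of `η` -/
def etaVal (n : ℕ) : Fin (n + 2) ⊕ Fin (n + 2) → Surf (n + 2)
  | Sum.inl i => if i = 0 then a 0 * a 1 else if i = 1 then cc n * a 1 * (cc n)⁻¹ else a i
  | Sum.inr i => if i = 0 then cc n else if i = 1 then b 1 * (cc n)⁻¹ else b i

/-- values of `η⁻¹` -/
def etaInvVal (n : ℕ) : Fin (n + 2) ⊕ Fin (n + 2) → Surf (n + 2)
  | Sum.inl i => if i = 0 then a 0 * ((b 0)⁻¹ * (a 1)⁻¹ * b 0) else
      if i = 1 then (b 0)⁻¹ * a 1 * b 0 else a i
  | Sum.inr i => if i = 0 then (b 0)⁻¹ * a 1 * b 0 * (a 1)⁻¹ * b 0 else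
      if i = 1 then b 1 * b 0 else b i

/-- `η` as an endomorphism -/
def etaHom (n : ℕ) : Surf (n + 2) →* Surf (n + 2) := FreeGroup.lift (etaVal n)
/-- `η⁻¹` as an endomorphism -/
def etaInvHom (n : ℕ) : Surf (n + 2) →* Surf (n + 2) := FreeGroup.lift (etaInvVal n)

lemma one_ne_zero' : (1 : Fin (n + 2)) ≠ 0 := by simp

lemma eta_a0 : etaHom n (a 0) = a 0 * a 1 := by simp [etaHom, a, etaVal]
lemma eta_b0 : etaHom n (b 0) = cc n := by simp [etaHom, b, etaVal]
lemma eta_a1 : etaHom n (a 1) = cc n * a 1 * (cc n)⁻¹ := by simp [etaHom, a, etaVal]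
lemma eta_b1 : etaHom n (b 1) = b 1 * (cc n)⁻¹ := by simp [etaHom, b, etaVal]
lemma eta_a (i : Fin (n + 2)) (h0 : i ≠ 0) (h1 : i ≠ 1) : etaHom n (a i) = a i := by
  simp [etaHom, a, etaVal, h0, h1]
lemma eta_b (i : Fin (n + 2)) (h0 : i ≠ 0) (h1 : i ≠ 1) : etaHom n (b i) = b i := by
  simp [etaHom, b, etaVal, h0, h1]

lemma etai_a0 : etaInvHom n (a 0) = a 0 * ((b 0)⁻¹ * (a 1)⁻¹ * b 0) := by
  simp [etaInvHom, a, b, etaInvVal]
lemma etai_b0 : etaInvHom n (b 0) = (b 0)⁻¹ * a 1 * b 0 * (a 1)⁻¹ * b 0 := by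
  simp [etaInvHom, a, b, etaInvVal]
lemma etai_a1 : etaInvHom n (a 1) = (b 0)⁻¹ * a 1 * b 0 := by simp [etaInvHom, a, b, etaInvVal]
lemma etai_b1 : etaInvHom n (b 1) = b 1 * b 0 := by simp [etaInvHom, b, etaInvVal]
lemma etai_a (i : Fin (n + 2)) (h0 : i ≠ 0) (h1 : i ≠ 1) : etaInvHom n (a i) = a i := by
  simp [etaInvHom, a, etaInvVal, h0, h1]
lemma etai_b (i : Fin (n + 2)) (h0 : i ≠ 0) (h1 : i ≠ 1) : etaInvHom n (b i) = b i := by
  simp [etaInvHom, b, etaInvVal, h0, h1]

/-- Homomorphisms from `Surf` agreeing on `aᵢ` and `bᵢ` are equal. -/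
lemma hom_ext {g : ℕ} {G : Type*} [Group G] {f f' : Surf g →* G} (h1 : ∀ i, f (a i) = f' (a i))
    (h2 : ∀ i, f (b i) = f' (b i)) : f = f' := by
  apply FreeGroup.ext_hom
  rintro (i | i)
  · exact h1 i
  · exact h2 i

/-- The automorphism `η`. -/
def eta (n : ℕ) : MulAut (Surf (n + 2)) :=
  MonoidHom.toMulEquiv (etaHom n) (etaInvHom n)
    (by
      apply hom_ext
      · intro i
        by_cases h0 : i = 0
        · subst h0
          simp only [MonoidHom.comp_apply, eta_a0, map_mul, etai_a0, etai_a1, MonoidHom.id_apply]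
          group
        by_cases h1 : i = 1
        · subst h1
          simp only [MonoidHom.comp_apply, eta_a1, cc, map_mul, map_inv, etai_a1, etai_b0,
            MonoidHom.id_apply]
          group
        · simp only [MonoidHom.comp_apply, eta_a i h0 h1, etai_a i h0 h1, MonoidHom.id_apply]
      · intro i
        by_cases h0 : i = 0
        · subst h0
          simp only [MonoidHom.comp_apply, eta_b0, cc, map_mul, map_inv, etai_a1, etai_b0,
            MonoidHom.id_apply]
          group
        by_cases h1 : i = 1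
        · subst h1
          simp only [MonoidHom.comp_apply, eta_b1, cc, map_mul, map_inv, etai_a1, etai_b0,
            etai_b1, MonoidHom.id_apply]
          group
        · simp only [MonoidHom.comp_apply, eta_b i h0 h1, etai_b i h0 h1, MonoidHom.id_apply])
    (by
      apply hom_ext
      · intro i
        by_cases h0 : i = 0
        · subst h0
          simp only [MonoidHom.comp_apply, eta_a0, eta_a1, eta_b0, map_mul, map_inv, etai_a0,
            MonoidHom.id_apply, cc]
          group
        by_cases h1 : i = 1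
        · subst h1
          simp only [MonoidHom.comp_apply, eta_a1, cc, map_mul, map_inv, etai_a1, eta_b0,
            MonoidHom.id_apply]
          group
        · simp only [MonoidHom.comp_apply, eta_a i h0 h1, etai_a i h0 h1, MonoidHom.id_apply]
      · intro i
        by_cases h0 : i = 0
        · subst h0
          simp only [MonoidHom.comp_apply, eta_b0, eta_a1, cc, map_mul, map_inv, etai_b0,
            MonoidHom.id_apply]
          group
        by_cases h1 : i = 1
        · subst h1
          simp only [MonoidHom.comp_apply, eta_b1, eta_b0, cc, map_mul, etai_b1,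
            MonoidHom.id_apply]
          group
        · simp only [MonoidHom.comp_apply, eta_b i h0 h1, etai_b i h0 h1, MonoidHom.id_apply])

lemma eta_apply (w : Surf (n + 2)) : eta n w = etaHom n w := rfl

lemma bdry_succ (n : ℕ) : bdry (n + 2) =
    ⁅(a 0 : Surf (n + 2)), (b 0 : Surf (n + 2))⁆ * (⁅(a 1 : Surf (n + 2)), (b 1 : Surf (n + 2))⁆ *
    ((List.finRange n).map fun i => ⁅a i.succ.succ, b i.succ.succ⁆).prod) := by
  unfold bdry
  rw [List.finRange_succ, List.finRange_succ]
  simp only [List.map_cons, List.map_map, List.prod_cons]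
  rfl

lemma bdry_of_fix (F : Surf (n + 2) →* Surf (n + 2))
    (h1 : F (⁅(a 0 : Surf (n + 2)), (b 0 : Surf (n + 2))⁆ *
      ⁅(a 1 : Surf (n + 2)), (b 1 : Surf (n + 2))⁆) =
      ⁅(a 0 : Surf (n + 2)), (b 0 : Surf (n + 2))⁆ * ⁅(a 1 : Surf (n + 2)), (b 1 : Surf (n + 2))⁆)
    (h2 : ∀ i, i ≠ 0 → i ≠ 1 → F (a i) = a i) (h3 : ∀ i, i ≠ 0 → i ≠ 1 → F (b i) = b i) :
    F (bdry (n + 2)) = bdry (n + 2) := by
  rw [bdry_succ, ← mul_assoc, map_mul, h1, map_list_prod, List.map_map]
  congr 2
  apply List.map_congr_left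
  intro i _
  have e0 : i.succ.succ ≠ 0 := Fin.succ_ne_zero _
  have e1 : i.succ.succ ≠ 1 := by
    intro h
    have := congrArg Fin.val h
    simp at this
  simp only [Function.comp_apply, map_commutatorElement, h2 _ e0 e1, h3 _ e0 e1]

lemma eta_bdry : eta n (bdry (n + 2)) = bdry (n + 2) := by
  apply bdry_of_fix (etaHom n) _ eta_a eta_b
  simp only [commutatorElement_def, map_mul, map_inv, eta_a0, eta_b0, eta_a1, eta_b1, cc]
  group

/-- values of the twist `φ₀` -/
def twVal (n : ℕ) (e : ℤ) : Fin (n + 2) ⊕ Fin (n + 2) → Surf (n + 2)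
  | Sum.inl i => if i = 1 then a 1 * (b 1) ^ e else a i
  | Sum.inr i => b i

/-- `φ₀` as an endomorphism. -/
def twHom (n : ℕ) (e : ℤ) : Surf (n + 2) →* Surf (n + 2) := FreeGroup.lift (twVal n e)

lemma tw_a1 (e : ℤ) : twHom n e (a 1) = a 1 * (b 1) ^ e := by simp [twHom, a, twVal]
lemma tw_a (e : ℤ) (i : Fin (n + 2)) (h1 : i ≠ 1) : twHom n e (a i) = a i := by
  simp [twHom, a, twVal, h1]
lemma tw_b (e : ℤ) (i : Fin (n + 2)) : twHom n e (b i) = b i := by
  simp [twHom, b, twVal]

lemma tw_comp (e e' : ℤ) (h : e + e' = 0) : (twHom n e).comp (twHom n e') = MonoidHom.id _ := by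
  apply hom_ext
  · intro i
    by_cases h1 : i = 1
    · subst h1
      rw [MonoidHom.comp_apply, tw_a1, map_mul, map_zpow, tw_a1, tw_b, mul_assoc, ← zpow_add, h]
      simp
    · rw [MonoidHom.comp_apply, tw_a _ _ h1, tw_a _ _ h1]; rfl
  · intro i
    rw [MonoidHom.comp_apply, tw_b, tw_b]; rfl

/-- The twist `φ₀ : a₂ ↦ a₂ b₂`. -/
def tw (n : ℕ) : MulAut (Surf (n + 2)) :=
  MonoidHom.toMulEquiv (twHom n 1) (twHom n (-1)) (tw_comp _ _ (by norm_num))
    (tw_comp _ _ (by norm_num))

lemma tw_apply (w : Surf (n + 2)) : tw n w = twHom n 1 w := rfl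

lemma tw_mem : tw n ∈ MCG (n + 2) (n + 2) (hbody (n + 2)) := by
  constructor
  · apply bdry_of_fix (twHom n 1)
    · simp only [commutatorElement_def, map_mul, map_inv, tw_a1, tw_b, tw_a 1 0 one_ne_zero'.symm]
      group
    · intro i _ h1; exact tw_a 1 i h1
    · intro i _ _; exact tw_b 1 i
  · intro w
    have : (hbody (n + 2)).comp (twHom n 1) = hbody (n + 2) := by
      apply hom_ext
      · intro i
        by_cases h1 : i = 1
        · subst h1
          rw [MonoidHom.comp_apply, tw_a1, map_mul, zpow_one, hbody_b, mul_one]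
        · rw [MonoidHom.comp_apply, tw_a _ _ h1]
      · intro i
        rw [MonoidHom.comp_apply, tw_b]
    exact DFunLike.congr_fun this w

/-- `x₁ ↦ x₁ x₂` -/
def barEta (n : ℕ) : FreeGroup (Fin (n + 2)) →* FreeGroup (Fin (n + 2)) :=
  FreeGroup.lift fun i => if i = 0 then FreeGroup.of 0 * FreeGroup.of 1 else FreeGroup.of i

lemma barEta_one : barEta n (FreeGroup.of 1) = FreeGroup.of 1 := by simp [barEta]

lemma hbody_cc : hbody (n + 2) (cc n) = 1 := by
  simp [cc, hbody_a, hbody_b]

lemma hbody_eta (w : Surf (n + 2)) : hbody (n + 2) (eta n w) = barEta n (hbody (n + 2) w) := by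
  have : (hbody (n + 2)).comp (etaHom n) = (barEta n).comp (hbody (n + 2)) := by
    apply hom_ext
    · intro i
      by_cases h0 : i = 0
      · subst h0
        simp only [MonoidHom.comp_apply, eta_a0, map_mul, hbody_a, barEta,
          FreeGroup.lift_apply_of, if_true]
      by_cases h1 : i = 1
      · subst h1
        simp only [MonoidHom.comp_apply, eta_a1, map_mul, map_inv, hbody_a, barEta,
          FreeGroup.lift_apply_of, hbody_cc]
        simp
      · simp only [MonoidHom.comp_apply, eta_a i h0 h1, hbody_a, barEta,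
          FreeGroup.lift_apply_of, if_neg h0]
    · intro i
      by_cases h0 : i = 0
      · subst h0
        simp only [MonoidHom.comp_apply, eta_b0, hbody_b, hbody_cc, map_one]
      by_cases h1 : i = 1
      · subst h1
        simp only [MonoidHom.comp_apply, eta_b1, map_mul, map_inv, hbody_b, hbody_cc, map_one]
        simp
      · simp only [MonoidHom.comp_apply, eta_b i h0 h1, hbody_b, map_one]
  exact DFunLike.congr_fun this w

/-- The twists `t_k = η^k φ₀ η^{-k}`. -/
def tk (n : ℕ) (k : ℕ) : MulAut (Surf (n + 2)) := eta n ^ k * tw n * (eta n ^ k)⁻¹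

lemma tk_succ (k : ℕ) : tk n (k + 1) = eta n * tk n k * (eta n)⁻¹ := by
  unfold tk
  rw [pow_succ', mul_inv_rev]
  group

lemma conj_mem (φ : MulAut (Surf (n + 2))) (hφ : φ ∈ MCG (n + 2) (n + 2) (hbody (n + 2))) :
    eta n * φ * (eta n)⁻¹ ∈ MCG (n + 2) (n + 2) (hbody (n + 2)) := by
  have h0 : (eta n)⁻¹ (bdry (n + 2)) = bdry (n + 2) := by
    conv_lhs => rw [← eta_bdry]
    exact MulAut.inv_apply_self _ _ _
  constructor
  · rw [MulAut.mul_apply, MulAut.mul_apply, h0, hφ.1, eta_bdry]
  · intro w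
    rw [MulAut.mul_apply, MulAut.mul_apply, hbody_eta, hφ.2, ← hbody_eta,
      MulAut.apply_inv_self]

lemma tk_mem (k : ℕ) : tk n k ∈ MCG (n + 2) (n + 2) (hbody (n + 2)) := by
  induction k with
  | zero => simpa [tk] using tw_mem
  | succ k ih => rw [tk_succ]; exact conj_mem _ ih

lemma hbody_eta_pow (k : ℕ) (w : Surf (n + 2)) (hw : barEta n (hbody (n + 2) w) = hbody (n + 2) w) :
    hbody (n + 2) ((eta n ^ k) w) = hbody (n + 2) w := by
  induction k with
  | zero => rfl
  | succ k ih => rw [pow_succ', MulAut.mul_apply, hbody_eta, ih, hw]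

variable {D : Surf (n + 2) → MM (n + 2)}
  (hD : ∀ u v, D (u * v) = D u + of ℤ _ (hbody (n + 2) u) • D v) (hDa : ∀ i, D (a i) = 0)
  (hDb : ∀ i, D (b i) = Pi.single i 1)

/-- The letter `y = x₂`. -/
def yy (n : ℕ) : FreeGroup (Fin (n + 2)) := FreeGroup.of 1

include hD hDa hDb in
lemma D_cc : D (cc n) = Pi.single 0 (of ℤ _ (yy n)⁻¹) := by
  unfold cc
  rw [hD, hD, D_inv hD, hDa, hDb, hbody_a]
  simp only [smul_zero, neg_zero, add_zero, zero_add, map_inv, hbody_a]
  rw [← Pi.single_smul, smul_eq_mul, mul_one]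
  rfl

include hD hDa hDb in
/-- The action of `η` on the abelianised kernel. -/
lemma eta_semilinear (w : Surf (n + 2)) (hw : hbody (n + 2) w = 1) :
    D (eta n w) = ∑ j, MonoidAlgebra.mapDomainRingHom ℤ (barEta n) (D w j) • D (eta n (b j)) := by
  have := vanish (R := AA (n + 2)) (N := MM (n + 2)) ((of ℤ _).comp (barEta n))
    (fun w => D (eta n w) -
      ∑ j, MonoidAlgebra.mapDomainRingHom ℤ (barEta n) (D w j) • D (eta n (b j)))
      (by
        intro u v
        rw [map_mul, hD, hbody_eta, hD u v]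
        simp only [Pi.add_apply, Pi.smul_apply, map_add, smul_eq_mul, map_mul, add_smul, mul_smul,
          Finset.sum_add_distrib, smul_sub, ← Finset.smul_sum, MonoidHom.comp_apply]
        have : MonoidAlgebra.mapDomainRingHom ℤ (barEta n) (of ℤ _ (hbody (n + 2) u)) =
            of ℤ _ (barEta n (hbody (n + 2) u)) := by
          simp [MonoidAlgebra.of_apply]
        rw [this]
        abel)
      (by
        intro i
        have : ∀ j, MonoidAlgebra.mapDomainRingHom ℤ (barEta n)
            ((Pi.single i (1 : AA (n + 2)) : MM (n + 2)) j) =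
            (Pi.single i (1 : AA (n + 2)) : MM (n + 2)) j := by
          intro j
          by_cases h : j = i
          · subst h; simp
          · rw [Pi.single_eq_of_ne h, map_zero]
        simp only [hDb, this]
        rw [sum_smul_single, sub_self])
      w hw
  exact sub_eq_zero.mp this

/-- `y⁻¹ + ⋯ + y⁻ᵏ` -/
noncomputable def sig (n k : ℕ) : AA (n + 2) := ∑ j ∈ Finset.range k, of ℤ _ ((yy n)⁻¹ ^ (j + 1))

lemma bar_yy (j : ℕ) : barEta n ((yy n)⁻¹ ^ j) = (yy n)⁻¹ ^ j := by
  rw [map_pow, map_inv]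
  unfold yy
  rw [barEta_one]

lemma bar_sig (k : ℕ) : MonoidAlgebra.mapDomainRingHom ℤ (barEta n) (sig n k) = sig n k := by
  unfold sig
  rw [map_sum]
  apply Finset.sum_congr rfl
  intro j _
  have : MonoidAlgebra.mapDomainRingHom ℤ (barEta n) (of ℤ _ ((yy n)⁻¹ ^ (j + 1))) =
      of ℤ _ (barEta n ((yy n)⁻¹ ^ (j + 1))) := by
    simp [MonoidAlgebra.of_apply]
  rw [this, bar_yy]

include hD hDa hDb in
lemma D_eta_pow (k : ℕ) : hbody (n + 2) ((eta n ^ k) (b 1)) = 1 ∧
    D ((eta n ^ k) (b 1)) = Pi.single 1 1 - Pi.single 0 (sig n k) := by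
  induction k with
  | zero =>
    constructor
    · exact hbody_b 1
    · simpa [sig] using hDb 1
  | succ k ih =>
    obtain ⟨ih1, ih2⟩ := ih
    constructor
    · rw [pow_succ', MulAut.mul_apply, hbody_eta, ih1, map_one]
    · rw [pow_succ', MulAut.mul_apply, eta_semilinear hD hDa hDb _ ih1, ih2]
      have h1 : ∀ j, MonoidAlgebra.mapDomainRingHom ℤ (barEta n)
          ((Pi.single 1 (1 : AA (n + 2)) - Pi.single 0 (sig n k) : MM (n + 2)) j) • D (eta n (b j))
          = (Pi.single 1 (1 : AA (n + 2)) : MM (n + 2)) j • D (eta n (b j)) -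
            (if j = 0 then sig n k • D (eta n (b 0)) else 0) := by
        intro j
        rw [Pi.sub_apply, map_sub, sub_smul]
        congr 1
        · by_cases h : j = 1
          · subst h; simp
          · rw [Pi.single_eq_of_ne h, map_zero]
        · by_cases h : j = 0
          · subst h
            rw [Pi.single_eq_same, bar_sig, if_pos rfl]
          · rw [Pi.single_eq_of_ne h, map_zero, zero_smul, if_neg h]
      simp only [h1]
      rw [Finset.sum_sub_distrib, sum_smul_single, Finset.sum_ite_eq' Finset.univ (0 : Fin (n + 2)),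
        if_pos (Finset.mem_univ _), eta_apply, eta_apply, eta_b1, eta_b0, hD, hbody_b, map_one,
        one_smul, D_inv hD, hbody_cc, inv_one, map_one, one_smul, D_cc hD hDa hDb, hDb,
        ← Pi.single_smul, smul_eq_mul, ← sub_eq_add_neg, sub_sub, ← Pi.single_add]
      congr 2
      unfold sig
      rw [Finset.sum_range_succ', Finset.sum_mul]
      refine (add_comm _ _).trans ?_
      congr 1
      · apply Finset.sum_congr rfl
        intro j _
        rw [← map_mul, ← pow_succ]

include hD hDa hDb in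
lemma D_tk (k : ℕ) : D (tk n k (a 1)) 0 = -(of ℤ _ (yy n) * sig n k) := by
  have hbar : barEta n (hbody (n + 2) (a 1)) = hbody (n + 2) (a 1) := by
    rw [hbody_a, barEta_one]
  have h1 : hbody (n + 2) ((eta n ^ k) (a 1)) = yy n := by
    rw [hbody_eta_pow k _ hbar, hbody_a]; rfl
  have h2 : tk n k ((eta n ^ k) (a 1)) = (eta n ^ k) (a 1) * (eta n ^ k) (b 1) := by
    unfold tk
    rw [MulAut.mul_apply, MulAut.mul_apply, MulAut.inv_apply_self, ← map_mul, tw_apply, tw_a1,
      zpow_one]
  have h3 : hbody (n + 2) ((eta n ^ k) (a 1) * (a 1)⁻¹) = 1 := by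
    rw [map_mul, map_inv, h1, hbody_a]
    exact mul_inv_cancel _
  have h4 := trivial_action hD hDa hDb (tk n k) (tk_mem k) _ h3
  have h5 : tk n k ((eta n ^ k) (a 1) * (a 1)⁻¹) * tk n k (a 1) =
      (eta n ^ k) (a 1) * (eta n ^ k) (b 1) := by
    rw [← map_mul, inv_mul_cancel_right, h2]
  have h6 := congrArg D h5
  rw [hD, h4, (tk_mem k).2, h3, map_one, one_smul, hD, D_inv hD, hDa, smul_zero, neg_zero,
    smul_zero, add_zero, hD, h1, (D_eta_pow hD hDa hDb k).2] at h6
  have h7 := congrFun (add_left_cancel h6) 0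
  rw [h7]
  simp

/-! ### Infinite generation -/

include hD hDa hDb in
lemma abelianization_not_finite :
    ¬ Module.Finite ℤ (Additive (Abelianization (MCG (n + 2) (n + 2) (hbody (n + 2))))) := by
  intro hfin
  let δ : MCG (n + 2) (n + 2) (hbody (n + 2)) →* Multiplicative (AA (n + 2)) :=
    { toFun := fun φ => Multiplicative.ofAdd (D (φ.1 (a 1)) 0)
      map_one' := by
        change Multiplicative.ofAdd (D (a 1) 0) = 1
        rw [hDa]; rfl
      map_mul' := by
        intro φ ψ
        change Multiplicative.ofAdd (D ((φ.1 * ψ.1) (a 1)) 0) = _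
        rw [delta_mul hD hDa hDb 1 φ.1 ψ.1 φ.2 ψ.2]; rfl }
  let L : Additive (Abelianization (MCG (n + 2) (n + 2) (hbody (n + 2)))) →+ AA (n + 2) :=
    MonoidHom.toAdditiveLeft (Abelianization.lift δ)
  let t : ℕ → Additive (Abelianization (MCG (n + 2) (n + 2) (hbody (n + 2)))) := fun k =>
    Additive.ofMul (Abelianization.of ⟨tk n k, tk_mem k⟩)
  have hLt : ∀ k, L (t k) = -(of ℤ _ (yy n) * sig n k) := by
    intro k
    rw [← D_tk hD hDa hDb k]
    rfl
  let v : ℕ → Additive (Abelianization (MCG (n + 2) (n + 2) (hbody (n + 2)))) := fun k =>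
    t k - t (k + 1)
  have hLv : ∀ k, L (v k) = of ℤ _ ((yy n)⁻¹ ^ k) := by
    intro k
    simp only [v]
    rw [map_sub, hLt, hLt]
    unfold sig
    rw [Finset.sum_range_succ, mul_add, ← map_mul]
    have : yy n * (yy n)⁻¹ ^ (k + 1) = (yy n)⁻¹ ^ k := by
      rw [pow_succ', mul_inv_cancel_left]
    rw [this]
    abel
  apply Module.Finite.not_linearIndependent_of_infinite (R := ℤ) v
  apply LinearIndependent.of_comp L.toIntLinearMap
  apply LinearIndependent.of_comp
    (MonoidAlgebra.coeffAddEquiv (R := ℤ) (M := FreeGroup (Fin (n + 2)))).toAddMonoidHom.toIntLinearMap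
  have hli := (Finsupp.linearIndependent_single_one ℤ (FreeGroup (Fin (n + 2)))).comp
    (fun k : ℕ => (yy n)⁻¹ ^ k) (by
      intro k l hkl
      let q : FreeGroup (Fin (n + 2)) →* Multiplicative ℤ :=
        FreeGroup.lift fun _ => Multiplicative.ofAdd 1
      have h1 := congrArg (fun w => Multiplicative.toAdd (q w)) hkl
      simpa [q, yy] using h1)
  convert hli using 1
  · funext k
    simp only [Function.comp_apply, AddMonoidHom.coe_toIntLinearMap, hLv]
    rfl
  · rfl
  · exact Subsingleton.elim _ _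

end auts

/-- **Main theorem.** For every genus `g ≥ 2`, the stabiliser `MCG(f)` of the handlebody map
`f : aᵢ ↦ xᵢ, bᵢ ↦ 1` from the surface of genus `g` with one boundary component to the bouquet of
`g` circles has infinitely generated `H₁(MCG(f); ℤ)`. -/
theorem result (g : ℕ) (hg : 2 ≤ g) :
    ¬ Module.Finite ℤ (groupHomology (Rep.trivial ℤ (MCG g g (hbody g)) ℤ) 1) := by
  obtain ⟨n, rfl⟩ : ∃ n, g = n + 2 := ⟨g - 2, by omega⟩
  intro hfin
  obtain ⟨D, hD, hDa, hDb⟩ := exists_D (n + 2)
  apply abelianization_not_finite hD hDa hDb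
  let e1 := groupHomology.H1AddEquivOfIsTrivial
    (Rep.trivial ℤ (MCG (n + 2) (n + 2) (hbody (n + 2))) ℤ)
  let e2 : TensorProduct ℤ (Additive (Abelianization (MCG (n + 2) (n + 2) (hbody (n + 2))))) ℤ
      ≃ₗ[ℤ] Additive (Abelianization (MCG (n + 2) (n + 2) (hbody (n + 2)))) :=
    TensorProduct.rid ℤ _
  exact Module.Finite.equiv ((e1.trans e2.toAddEquiv).toIntLinearEquiv)

end Pool.Agent.Results.MP_988b7a_gt.TwistStabiliser
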